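import Pool.Agent.W5h51.FL.Stm

/-!
# Robust finiteness of attractors near Hamiltonian, gradient and other vector fields

Palis' question on flows (Q2 of `MP_3a2b62_an`). Let `M` be a closed smooth manifold, `1 ≤ r ≤ ∞`, and
let `X` be a vector field of class `C^r` with a function `h` of class `C^(r+1)` such that `X h ≥ 0`,
all critical points of `h` outside an open set `O` are nondegenerate, and `X = A dh` on `O`, where
`A : T*M → TM` is a `C^r` field of linear maps with `ξ (A ξ) ≥ 0` for all covectors `ξ`
(`IsLyapForm`). Examples:

* `O = M`: the Hamiltonian vector fields of symplectic and Poisson structures (`A` antisymmetric; for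
  instance Euler and Nambu fields `*(dh ∧ dF₂ ∧ … )` with several first integrals), gradient fields,
  and sums of both (damped Hamiltonian, metriplectic fields). Nothing is assumed on `h` here.
* `O = ∅`: fields which do not decrease some Morse function, for instance fields with a Morse function
  as a first integral.

Then every `C^r` neighbourhood of `X` contains a field `Y` with an open neighbourhood `𝒩` in the space
of all `C^1` vector fields such that for all `Z` in `𝒩`

* every forward orbit of `Z` converges to one of finitely many stationary points;
* the set of the points whose forward orbit does not converge to a sink (an asymptotically stable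
  stationary point) is closed and has Lebesgue measure zero;
* so the flow of `Z` has finitely many attractors covering `M`, for every measure on `M`.

Outline. `Y = X + A dg + ε ∑ dh'(W_i) W_i`, where `h' = h + g` is a Morse function, `g` is small and
supported in `O`, and the fields `W_i` span. The function `h'` is a Lyapunov function of `Y`, which is
corrected near its critical points for the fields `Z` near `Y` (`local_lyap`). Near an equilibrium
the fields `Z` satisfy the cone condition `B(y-x, Z(y)-Z(x)) ≥ κ|y-x|²`, `B` the Hessian of `h'`
(`cone_mono`). Hence equilibria with negative definite `B` are sinks (`sink_of_cone`), and the local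
stable sets of the other ones meet every line in a direction `e` with `B(e,e) ≥ 0` in at most one
point, so they are null (`null_basin`).

The definitions of the `C^r` topology, flows and attractors and the continuity of affine families are
those of helper74 (`Pool/Agent/W5h74/FL`), whose result `WeakLyapunovFields` contains the density
statement for more general critical sets, and for time-one maps, but no robustness and no sinks.

Author: helper51.
-/

set_option autoImplicit false

open scoped Manifold ContDiff Topology
open Filter Set MeasureTheory

universe u

namespace Pool.Agent.Results.MP_3a2b62_an.RobustFields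

open Pool.Agent.W5h51.FL (IsLyapForm SinksAttract)
open Pool.Agent.W5h74.FL (V VField crTopology IsFlow FiniteAttractors)

/-- Let `M` be a closed manifold, `1 ≤ r ≤ ∞`, `X ∈ χ^r(M)` and `h` a function of class `C^(r+1)` with
`IsLyapForm X h` (for instance `X = A dh` with `A ≥ 0`, or `X h ≥ 0` with `h` Morse). Then every
neighbourhood of `X` in `χ^r(M)` contains a field `Y` which has an open neighbourhood `𝒩` in `χ^1(M)`
all of whose elements `Z` have finitely many sinks, whose basins cover `M` up to a closed Lebesgue null
set, and finitely many attractors covering `M` for every measure. -/
theorem result {n : ℕ} {M : Type u} [TopologicalSpace M] [T2Space M] [CompactSpace M]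
    [ChartedSpace (V n) M] [IsManifold (𝓡 n) ∞ M] {r : ℕ∞} (hr : 1 ≤ r) (X : VField n M r)
    {h : M → ℝ} (hh : ContMDiff (𝓡 n) 𝓘(ℝ, ℝ) (r + 1) h) (hX : IsLyapForm X h)
    {U : Set (VField n M r)} (hU : IsOpen[crTopology n M r] U) (hXU : X ∈ U) :
    ∃ Y ∈ U, ∃ 𝒩 : Set (VField n M 1), IsOpen[crTopology n M 1] 𝒩 ∧
      (∃ Y₁ ∈ 𝒩, ∀ x, Y₁.fld x = Y.fld x) ∧
      ∀ Z ∈ 𝒩, ∃ φ, IsFlow Z.fld φ ∧ SinksAttract n φ ∧
        ∀ (_ : MeasurableSpace M) (μ : Measure M), FiniteAttractors μ φ :=
  Pool.Agent.W5h51.FL.main hr X hh hX hU hXU

end Pool.Agent.Results.MP_3a2b62_an.RobustFields
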