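import Pool.Agent.W5h32.TX.Circle

/-!
# Finitude of attractors near toral extensions

Author: helper32. Definitions: `Pool/Agent/H728R2/FA/Defs.lean` (`ω`-limit sets, attractors),
`Pool/Agent/H718R2/G0.lean` (`C^r` topology), `Pool/Agent/R773/TE/Defs.lean` (`ProdDiff`, `proj`),
`Pool/Agent/W5h32/PT/Sm.lean` (`IsTorusAction`, `Normalises`, `Near`),
`Pool/Agent/W5h32/TX/Circ.lean` (`Tame`), `Pool/Agent/W5h32/TX/Inh.lean` (`fwd`, `fib`, `fibAct`,
`IsToralExt`, `TameAttr`, `InhTame`, `InhMeas`).
-/

set_option autoImplicit false

open scoped Manifold ContDiff Topology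

universe u v w

namespace Pool.Agent.Results.MP_3a2b62_an.ToralExtensions

open MeasureTheory Pool.Agent.H718R2.G Pool.Agent.W5h32.PT Pool.Agent.W5h32.TX

open Pool.Agent.R773.TE (ProdDiff proj)
open Pool.Agent.H728R2.FA (FiniteAttractors)

/-- Let `N` be a closed manifold diffeomorphic to `B × K`, where `B` is a closed manifold and `K` is
a torus, on which `𝕋^k = ℝ^k / ℤ^k` acts transitively, and let `F` be a `C^r` diffeomorphism of `N`,
`1 ≤ r ≤ ∞`, which is a toral extension `(b, y) ↦ (f b, A y + φ b)` (it normalises the action on the
fibres; `A` is an integral matrix with `det A ≠ 0`, and no eigenvalue of `A` other than `1` is a root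
of unity).

* Inheritance. Let `f` be the diffeomorphism of `B` induced by `F`. If `f` is a `C^r` limit of tame
  diffeomorphisms (all `ω`-limit sets are contained in finitely many closed invariant transitive
  sets), then `F` is a `C^r` limit of tame toral extensions, which therefore have finitely many
  attractors covering `N` up to a null set, for every measure. If `f` is a `C^r` limit of
  diffeomorphisms with finitely many attractors covering `B`, then `F` is a `C^r` limit of toral
  extensions with finitely many attractors covering `N` (for measures `ν` on `B` and `μ` on `N` such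
  that a set `S` is a null set if and only if its preimage is one).
* If `B` is a circle, then `F` is a `C^r` limit of tame toral extensions; so every toral extension
  over a diffeomorphism of the circle is a `C^r` limit of diffeomorphisms with finitely many
  attractors covering `N`. -/
theorem result (n d l k : ℕ) (N : Type u) [TopologicalSpace N] [T2Space N] [CompactSpace N]
    [ChartedSpace (V n) N] [IsManifold (𝓡 n) ∞ N]
    (B : Type v) [TopologicalSpace B] [T2Space B] [CompactSpace B] [ChartedSpace (V d) B]
    [IsManifold (𝓡 d) ∞ B]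
    (K : Type w) [TopologicalSpace K] [ChartedSpace (V l) K] [IsManifold (𝓡 l) ∞ K]
    (Θ : ProdDiff n d l N B K) (c : (Fin k → ℝ) → K → K) (A : Matrix (Fin k) (Fin k) ℤ)
    (r : ℕ∞) (hr : 1 ≤ r) (F : DiffM n N r) (H : IsToralExt Θ c A F) :
    (∀ f : DiffM d B r, (∀ x, proj Θ (F x) = f (proj Θ x)) →
      InhTame Θ c A F f ∧ InhMeas Θ c A F f) ∧
    (d = 1 → Nonempty (B ≃ₜ AddCircle (1 : ℝ)) →
      Near F fun G => IsToralExt Θ c A G ∧ TameAttr G) :=
  ⟨fun _ hcov => ⟨main_inherit hr H hcov, main_meas hr H hcov⟩,
    fun hd ⟨σ⟩ => main_circle hr hd σ H⟩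

end Pool.Agent.Results.MP_3a2b62_an.ToralExtensions
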