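import Pool.Agent.W5h32.PT.Sm

/-!
# Finitude of attractors near diffeomorphisms which normalise a torus action

Author: helper32. Definitions: `Pool/Agent/H728R2/FA/Defs.lean` (`ω`-limit sets, attractors),
`Pool/Agent/H718R2/G0.lean` (`C^r` topology), `Pool/Agent/W5h32/PT/Sm.lean` (`IsTorusAction`),
`Pool/Agent/W5h32/PT/Om.lean` (`FiniteAttractorsMod`), `Pool/Agent/W5h32/PT/Top.lean` (`Inv`,
`TransMod`), `Pool/Agent/Y318/MN/Dyn.lean` (`CritInv`), `Pool/Agent/Y318/MN/Push.lean` (`IsCrit`).
-/

set_option autoImplicit false

open scoped Manifold ContDiff Topology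

universe u

namespace Pool.Agent.Results.MP_3a2b62_an.TorusSymmetry

open MeasureTheory Set Filter Pool.Agent.H718R2.G Pool.Agent.TH80.OMS Pool.Agent.Y318.MN
  Pool.Agent.W5h32.PT

open Pool.Agent.H728R2.FA (omegaLim FiniteAttractors)

/-- Let `N` be a closed manifold with a smooth action `a` of a torus `𝕋^k = ℝ^k / ℤ^k`, and let `F`
be a `C^r` diffeomorphism of `N`, `1 ≤ r ≤ ∞`, which normalises the action: `F ∘ a t = a (A t) ∘ F`,
where `A` is an integral matrix with `det A ≠ 0` such that no eigenvalue of `A` other than `1` is a
root of unity (for instance `A = 1`: `F` commutes with the action).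

* If the map induced by `F` on the orbit space has finitely many attractors covering it up to a null
  set, then so has `a θ ∘ F` for Lebesgue almost every `θ` and for a residual set of `θ`; so every
  `C^r` neighbourhood of `F` contains diffeomorphisms `a θ ∘ F` with finitely many attractors
  covering `N` up to a null set. The measure `μ` on `N` is arbitrary.
* Let `h` be a smooth function on `N` which is invariant under the action, with `h ∘ F ≥ h` (for
  instance an invariant first integral of `F`), such that the points whose whole `F`-orbit consists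
  of critical points of `h` are contained in finitely many pairwise disjoint closed invariant sets
  `M i` of critical points of `h` which are transitive modulo the action (for instance, in finitely
  many orbits of the action). Then every `C^r` neighbourhood of `F` contains `G` such that every
  `ω`-limit set of `G` is contained in one of the `M i`, and `G` has finitely many attractors
  covering `N` up to a null set, for every measure on `N`. -/
theorem result (n k : ℕ) (N : Type u) [TopologicalSpace N] [T2Space N] [CompactSpace N]
    [ChartedSpace (V n) N] [IsManifold (𝓡 n) ∞ N] (r : ℕ∞) (hr : 1 ≤ r)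
    (a : (Fin k → ℝ) → N → N) (ha : IsTorusAction n k N a) (A : Matrix (Fin k) (Fin k) ℤ)
    (F : DiffM n N r) (hF : Normalises a A F) :
    (∀ (_ : MeasurableSpace N) (μ : Measure N), FiniteAttractorsMod μ a F →
      (∀ᵐ θ : Fin k → ℝ, FiniteAttractors μ (fun x => a θ (F x))) ∧
      (∀ᶠ θ in residual (Fin k → ℝ), FiniteAttractors μ (fun x => a θ (F x))) ∧
      Near F fun G => (∃ θ, ∀ x, G x = a θ (F x)) ∧ FiniteAttractors μ G) ∧
    ∀ (h : N → ℝ) (m : ℕ) (M : Fin m → Set N), IsMonotone n a F h M →
      Near F fun G => (∀ p, ∃ i, omegaLim G p ⊆ M i) ∧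
        ∀ (_ : MeasurableSpace N) (μ : Measure N), FiniteAttractors μ G :=
  ⟨fun _ μ hfin => near_of_mod ha hr F hF.comm hF.det hF.root μ hfin,
    fun _ _ M H U hU hFU => near_of_monotone ha hr F hF.comm hF.det hF.root H.smooth H.inv H.mono M
      H.closed H.image H.act H.disj H.crit H.trans H.cover U hU hFU⟩

end Pool.Agent.Results.MP_3a2b62_an.TorusSymmetry
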