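import Pool.Agent.W5h74.FL.PartD

/-!
# Finitude of attractors near flows with a weak Lyapunov function

Palis' questions on flows (Q2) and on diffeomorphisms (Q1), `N` a closed manifold, `1 ≤ r ≤ ∞`.

Definitions: `Pool/Agent/W5h74/FL/Defs.lean` (vector fields of class `C^r`, their `C^r` topology,
flows, `ω`-limit sets, attractors of flows), `Pool/Agent/W5h74/FL/PartB.lean` (`CoMap`, `IsCr`),
`Pool/Agent/H718R2/G0.lean` (`DiffM`, `strongTop`: diffeomorphisms of class `C^r` and the `C^r`
topology), `Pool/Agent/H728R2/FA/Defs.lean` (attractors of maps).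

Author: helper74.
-/

set_option autoImplicit false

open scoped Manifold ContDiff Topology
open Filter Set MeasureTheory

universe u

namespace Pool.Agent.Results.MP_3a2b62_an.WeakLyapunovFields

open Pool.Agent.W5h74.FL

open Pool.Agent.H718R2.G (DiffM strongTop)

variable {n : ℕ} {N : Type u} [TopologicalSpace N] [ChartedSpace (V n) N] [IsManifold (𝓡 n) ∞ N]
  {r : ℕ∞}

/-- `h` is a weak Lyapunov function of the vector field `X` with exceptional sets `M 0, …, M (m-1)`:
`X h ≥ 0`; the sets `M i` are closed, pairwise disjoint, invariant under the flow `φ` of `X`,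
transitive, and consist of critical points of `h`; every orbit of `X` that consists of critical
points of `h` is contained in one of them or in an open set `O`, whose closure does not meet them,
on which `X = A dh`, where `A : T*N → TN` is of class `C^r` and `ξ (A ξ) ≥ 0` for all covectors `ξ`.

Examples. `m = 0`, `O = N`: `X = A dh` with any function `h`; such are the Hamiltonian fields of all
symplectic and Poisson structures, gradient fields and damped Hamiltonian fields. `O = ∅`: a first
integral or increasing function `h` with finitely many critical points (`M i` are the stationary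
points among them), or finitely many critical orbits. -/
def IsWeakLyapunov (X : VField n N r) (h : N → ℝ) {m : ℕ} (M : Fin m → Set N) : Prop :=
  (∀ x, 0 ≤ dirDeriv X.fld h x) ∧
  ∃ (φ : N → ℝ → N) (O : Set N) (A : CoMap n N), IsFlow X.fld φ ∧
    (∀ i, IsClosed (M i)) ∧ (∀ i j, i ≠ j → Disjoint (M i) (M j)) ∧
    (∀ i t, (fun x => φ x t) '' M i = M i) ∧ (∀ i, ∃ x ∈ M i, M i ⊆ closure (φ x '' Ici 0)) ∧
    (∀ i, ∀ x ∈ M i, IsCrit n h x) ∧ IsOpen O ∧ (∀ i, Disjoint (M i) (closure O)) ∧
    IsCr r A ∧ (∀ (x : N) (ξ : V n →ₗ[ℝ] ℝ), 0 ≤ ξ (A x ξ)) ∧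
    (∀ x ∈ O, X.fld x = A x (diff n h x)) ∧
    ∀ x, (∀ t, IsCrit n h (φ x t)) → x ∈ O ∨ ∃ i, x ∈ M i

/-- Let `N` be a closed smooth manifold, `1 ≤ r ≤ ∞`, and let `X ∈ χ^r(N)` have a weak Lyapunov
function `h` of class `C^{r+1}` with exceptional sets `M i`. Let `F ∈ Diff^r(N)` be the time-one map
of `X` (it exists). Then every neighbourhood of `X` in `χ^r(N)` contains a vector field `Y`, whose
time-one map `G` lies in a given neighbourhood of `F` in `Diff^r(N)`, such that

* every orbit of `Y` converges to one of finitely many stationary points or has its `ω`-limit set in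
  some `M j` (so all orbits converge if `m = 0`, for instance if `X = A dh`);
* the flow of `Y` has finitely many attractors covering `N` up to a null set, for all measures;
* so has the diffeomorphism `G`, if the sets `M j` are transitive for `F` (for instance `m = 0`). -/
theorem result (n : ℕ) (N : Type u) [TopologicalSpace N] [T2Space N] [CompactSpace N]
    [ChartedSpace (V n) N] [IsManifold (𝓡 n) ∞ N] (r : ℕ∞) (hr : 1 ≤ r) (X : VField n N r)
    (h : N → ℝ) (hh : ContMDiff (𝓡 n) 𝓘(ℝ, ℝ) ((r + 1 : ℕ∞) : ℕ∞ω) h)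
    (m : ℕ) (M : Fin m → Set N) (hX : IsWeakLyapunov X h M) :
    ∃ (φ₀ : N → ℝ → N) (F : DiffM n N r), IsFlow X.fld φ₀ ∧ (∀ x, F x = φ₀ x 1) ∧
      ∀ (U : Set (VField n N r)) (U' : Set (DiffM n N r)), IsOpen[crTopology n N r] U → X ∈ U →
        IsOpen[strongTop n N r] U' → F ∈ U' →
        ∃ Y ∈ U, ∃ G ∈ U', ∃ φ : N → ℝ → N, IsFlow Y.fld φ ∧
          (∀ ψ, IsFlow Y.fld ψ → ψ = φ) ∧ (∀ x, G x = φ x 1) ∧
          (∃ (k : ℕ) (P : Fin k → N), (∀ i t, φ (P i) t = P i) ∧
            ∀ x, (∃ i, Tendsto (φ x) atTop (𝓝 (P i))) ∨ ∃ j, omegaLim φ x ⊆ M j) ∧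
          (∀ (_ : MeasurableSpace N) (μ : Measure N), FiniteAttractors μ φ) ∧
          ((∀ j, ∃ x ∈ M j, M j ⊆ closure (range fun k : ℕ => F^[k] x)) →
            ∀ (_ : MeasurableSpace N) (μ : Measure N),
              Pool.Agent.H728R2.FA.FiniteAttractors μ G) := by
  obtain ⟨hm, φ, O, A, hφ, hcl, hdis, hinv, htr, hC, hO, hMO, hA, hpos, hXA, hcov⟩ := hX
  refine ⟨theFlow hr X, timeOne hr X, theFlow_isFlow hr X, fun x => rfl,
    fun U U' hU hXU hU' hFU' => ?_⟩
  obtain ⟨Y, hYU, hYU', h1, h2, h3⟩ := approx_both hr X hh hm hφ hO hA hpos hXA M hcl hdis hMO hC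
    hinv htr hcov U hU hXU U' hU' hFU'
  exact ⟨Y, hYU, timeOne hr Y, hYU', theFlow hr Y, theFlow_isFlow hr Y,
    fun ψ hψ => eq_theFlow hr Y hψ, fun x => rfl, h1, h2, h3⟩

end Pool.Agent.Results.MP_3a2b62_an.WeakLyapunovFields
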